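import Pool.Agent.R494.FG7

/-!
# The rank conjecture over the finite subfields of infinite multiquadratic fields given by countable graphs

Let `E_N` be the quadratic twist by `N` of the non-CM curve `X_0(14)` or of the CM curve `X_0(49)`. Let `𝒩` be
a finite set of such twists, `N` in the classes below, for which `E_N(ℚ)` is finite and `Ш(E_N/ℚ)[2] = 0`.
Let `m` be a multiple of `56` and of all the `N`, and `r` a class modulo `m` which is prime to `m`, `1` modulo
`8`, a square modulo `7` and modulo the prime factors of the `N`. Let `g : ℕ → ℕ` be a function which tends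
to infinity (however slowly). Let `G` be a graph with the vertices `0, 1, 2, …`, decomposed into
finite intervals of vertices of any sizes, such that each vertex is joined to all or to none of the vertices
of every later interval (for intervals of size one: any countable graph).

There are `M ∈ {1, -q}`, `M' ∈ {1, q'}`, with primes `q`, `q'`, and there is an infinite sequence of prime
numbers `p_0 < p_1 < ⋯`, all `≡ r` modulo `m`, with `p_j` a nonsquare modulo `p_i` if and only if `i` and `j`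
are joined in `G`, such that the primes which belong to the same interval of vertices form a cluster of diameter
`≤ g(p)`, `p` the first of them, and such that for all the curves `E = E_{N M}` (`E_{N M'}` for the twists
of `X_0(49)`):

* for every finite set `T` of vertices, the twist of `E` by `∏_{i ∈ T} p_i` has finitely many rational points
  and no element of order two in `Ш` over `ℚ` if and only if the subgraph of `G` induced on `T` has an odd
  number of rooted spanning forests;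
* for every finite independent family `T_1, …, T_n` of finite sets all whose symmetric differences have
  this property, over the field `K = ℚ(√D_1, …, √D_n)`, `D_j = ∏_{i ∈ T_j} p_i`, of degree `2 ^ n`:
  `E(K)` is finite, `L(E/K, s)` extends to an entire function whose order at `s = 1` is the rank of `E(K)`,
  both being zero, and the 2-primary part of `Ш(E/K)` is finite and killed by `2 ^ n`;
* for every infinite such sequence `T_0, T_1, …`, all points of `E` over the field of infinite degree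
  `ℚ(√D_0, √D_1, …)` are torsion points.

For instance, for the graph without edges: over all the finite subfields of `ℚ(√p_0, √p_1, …)` the rank
conjecture holds for all these curves, with rank zero.

Proof: `R494/FG6` (an infinite sequence of clusters of primes, by the theorem of `R494/QR8` on clusters with
all graphs, in a class all whose refinements admit the same colour), the matrices of `R494/FG3`,
`R494/FG4`, and our file `MP_cd906c_nt/FieldsFromGraphs`.
-/

set_option autoImplicit false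

open NumberField IsDedekindDomain

namespace Pool.Agent.Results.MP_32c55d_nt.InfiniteGraphFields

/-- the coefficient `a` of the twist `y² = x³ + a x + b` by `N` of `X_0(49)` (`c = true`) and of
`X_0(14)` (`c = false`) -/
def A (c : Bool) (N : ℤ) : ℤ := if c = true then -35 * N ^ 2 else 5805 * N ^ 2

/-- the coefficient `b` of the twist `y² = x³ + a x + b` by `N` of `X_0(49)` (`c = true`) and of
`X_0(14)` (`c = false`) -/
def B (c : Bool) (N : ℤ) : ℤ := if c = true then -98 * N ^ 3 else -285714 * N ^ 3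

/-- the twist by `N` over the field `K` -/
def E (K : Type) [Field K] (c : Bool) (N : ℤ) : WeierstrassCurve K :=
  { a₁ := 0, a₂ := 0, a₃ := 0, a₄ := (A c N : K), a₆ := (B c N : K) }

/-- `E_N(ℚ)` is finite and `Ш(E_N/ℚ)` has no element of order two -/
def RankZeroShaTwo (c : Bool) (N : ℤ) : Prop :=
  Finite (E ℚ c N).toAffine.Point ∧ ∀ x : Pool.Agent.TH841.NF.D.Sha (E ℚ c N), 2 • x = 0 → x = 0

/-- the class of the twists of `X_0(49)`: `N ≥ 1` is squarefree and all its prime factors are `1`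
modulo `4` -/
def Class49 (N : ℤ) : Prop := 0 < N ∧ Squarefree N ∧ ∀ p : ℕ, p.Prime → (p : ℤ) ∣ N → p % 4 = 1

/-- the class of the twists of `X_0(14)`: `N` is squarefree, positive or negative, `1` modulo `4` and a
square modulo `7`, and all its prime factors `p ≠ 3` split completely in `ℚ(i, √2, √-7)`, or they are
inert in `ℚ(√2)` and in `ℚ(√-7)` -/
def Class14 (N : ℤ) : Prop := Squarefree N ∧ N % 4 = 1 ∧ (N % 7 = 1 ∨ N % 7 = 2 ∨ N % 7 = 4) ∧
  ∀ p : ℕ, p.Prime → (p : ℤ) ∣ N → p ≠ 3 ∧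
    ((p.Prime ∧ p % 8 = 1 ∧ (p % 7 = 1 ∨ p % 7 = 2 ∨ p % 7 = 4)) ∨
      (p.Prime ∧ (p % 8 = 3 ∨ p % 8 = 5) ∧ (p % 7 = 3 ∨ p % 7 = 5 ∨ p % 7 = 6)))

/-- the two classes -/
def Adm (c : Bool) (N : ℤ) : Prop := if c = true then Class49 N else Class14 N

open Classical in
/-- The identity plus the Laplacian of the subgraph of `G` induced on `T`, modulo two. Its determinant is
the number of the rooted spanning forests of this subgraph modulo two. -/
noncomputable def forest (G : SimpleGraph ℕ) (T : Finset ℕ) : Matrix T T (ZMod 2) :=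
  Matrix.of fun i j => if i = j then 1 + ((T.filter fun l => G.Adj i l).card : ZMod 2)
    else if G.Adj i j then 1 else 0

/-- the symmetric difference of the sets `T j`, `j ∈ J`: the elements which belong to an odd number of
them -/
def symm {ι : Type} (T : ι → Finset ℕ) (J : Finset ι) : Finset ℕ :=
  (J.biUnion T).filter fun i => Odd (J.filter fun j => i ∈ T j).card

/-- `K = ℚ(√d_1, …, √d_t)` -/
def IsMultiquadratic {t : ℕ} (d : Fin t → ℤ) (K : Type) [Field K] [NumberField K] : Prop :=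
  ∃ x : Fin t → K, (∀ i, x i ^ 2 = (d i : K)) ∧ IntermediateField.adjoin ℚ (Set.range x) = ⊤

/-- the number `q_v` of elements of the residue field of a finite place `v` of `K` -/
noncomputable def qv (K : Type) [Field K] (v : HeightOneSpectrum (𝓞 K)) : ℕ :=
  Nat.card (𝓞 K ⧸ v.asIdeal)

/-- `a_v = q_v + 1 - #E(k_v)` for `E : y² = x³ + a x + b`, that is `q_v` minus the number of affine
points -/
noncomputable def av (K : Type) [Field K] (a b : ℤ) (v : HeightOneSpectrum (𝓞 K)) : ℤ :=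
  (qv K v : ℤ) - Nat.card {z : (𝓞 K ⧸ v.asIdeal) × (𝓞 K ⧸ v.asIdeal) //
    z.2 ^ 2 = z.1 ^ 3 + (a : 𝓞 K ⧸ v.asIdeal) * z.1 + (b : 𝓞 K ⧸ v.asIdeal)}

open Classical in
/-- `F` is entire and is, for `Re s > 3/2`, the `L`-function of `E : y² = x³ + a x + b` over `K`
without the Euler factors at the places `v ∣ 2 (4a³ + 27b²) m` -/
def IsL (K : Type) [Field K] (a b m : ℤ) (F : ℂ → ℂ) : Prop :=
  Differentiable ℂ F ∧ ∀ s : ℂ, (3 : ℝ) / 2 < s.re →
    HasProd (fun v : HeightOneSpectrum (𝓞 K) =>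
      if ((2 * (4 * a ^ 3 + 27 * b ^ 2) * m : ℤ) : 𝓞 K) ∈ v.asIdeal then 1 else
        (1 - (av K a b v : ℂ) * (qv K v : ℂ) ^ (-s) + (qv K v : ℂ) ^ (1 - 2 * s))⁻¹) (F s)

open Classical in
/-- the rank conjecture for `E_N` over `K` with rank and order zero, and the finiteness of the 2-primary
part of `Ш(E_N/K)`, with the exponent `2 ^ t` -/
def BSDZero (K : Type) [Field K] [NumberField K] (c : Bool) (N m : ℤ) (t : ℕ) : Prop :=
  Finite (E K c N).toAffine.Point ∧
  (∃ F : ℂ → ℂ, IsL K (A c N) (B c N) m F) ∧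
  (∀ F : ℂ → ℂ, IsL K (A c N) (B c N) m F →
    analyticOrderAt F 1 = (Module.finrank ℤ (E K c N).toAffine.Point : ℕ∞)) ∧
  Module.finrank ℤ (E K c N).toAffine.Point = 0 ∧
  {y : Pool.Agent.TH841.NF.D.Sha (E K c N) | ∃ j : ℕ, (2 ^ j : ℕ) • y = 0}.Finite ∧
  ∀ (j : ℕ) (y : Pool.Agent.TH841.NF.D.Sha (E K c N)), (2 ^ j : ℕ) • y = 0 → (2 ^ t : ℕ) • y = 0

section proof

open Pool.Agent.R494.FG (GA crit14 crit49 fm fmN fmN_det exists_map oddsN oddsN_map oddsN_comp tors_union
  inf_seq exists_stable mat14 mat49)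
open Pool.Agent.Y687.MQ (AdmD matD SP)
open Pool.Agent.Y687 (NN)
open Pool.Agent.Results.MP_4a9ea6_nt.TwoPartTwistsX49 (mat split nonfourth nonsq)

lemma rz_iff (c : Bool) (N : ℤ) : RankZeroShaTwo c N ↔ Pool.Agent.R494.FG.RZ c N := Iff.rfl

/-- the criterion for all finite sets of vertices -/
theorem crit {G : SimpleGraph ℕ} {p : ℕ → ℕ} (hp : StrictMono p) (hpp : ∀ i, (p i).Prime)
    {m r : ℕ} (hm : 0 < m) (h56 : 56 ∣ m) (hpr : ∀ i, p i ≡ r [MOD m]) (hr : r.Coprime m)
    (hr8 : r % 8 = 1) (hr7 : r % 7 = 1 ∨ r % 7 = 2 ∨ r % 7 = 4)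
    (hG : ∀ i j, i ≠ j → (G.Adj i j ↔ ¬ IsSquare ((p j : ℕ) : ZMod (p i))))
    {q q' : ℕ} (hq : q.Prime) (hq56 : q % 56 = 3) (hq3 : q ≠ 3) (hqm : ¬ q ∣ m)
    (hql : ∀ l, l.Prime → l ∣ m → (l % 8 = 1 ∧ l % 7 ≠ 0) → IsSquare ((q : ℕ) : ZMod l))
    (hqp : ∀ i, ¬ IsSquare ((q : ℕ) : ZMod (p i)))
    (hq' : q'.Prime) (hq56' : q' % 56 = 5) (hqm' : ¬ q' ∣ m)
    (hql' : ∀ l, l.Prime → l ∣ m → (l % 4 = 1 ∧ l % 7 ≠ 0) → IsSquare ((q' : ℕ) : ZMod l))
    (hqp' : ∀ i, ¬ IsSquare ((q' : ℕ) : ZMod (p i)))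
    {M : Bool → ℤ}
    (hM14 : (M false = 1 ∧ ∀ i, ¬ 8 ∣ NN 1 (p i)) ∨ (M false = -q ∧ ∀ i, 8 ∣ NN 1 (p i)))
    (hM49 : (M true = 1 ∧ ∀ i, nonfourth (p i) = 1) ∨ (M true = q' ∧ ∀ i, nonfourth (p i) = 0))
    {c : Bool} {N : ℤ} (hadm : Adm c N) (hNm : N ∣ (m : ℤ))
    (hrN' : ∀ l : ℕ, l.Prime → (l : ℤ) ∣ N → IsSquare ((r : ℕ) : ZMod l)) (T : Finset ℕ) :
    Adm c (N * M c * ∏ i ∈ T, (p i : ℤ)) ∧
      (RankZeroShaTwo c (N * M c * ∏ i ∈ T, (p i : ℤ)) ↔ RankZeroShaTwo c N ∧ (forest G T).det ≠ 0) := by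
  classical
  obtain ⟨K, T', hT'⟩ := exists_map fun _ : Unit => T
  obtain rfl : T = (T' ()).map Fin.valEmbedding := hT' ()
  set T₀ := T' () with hT₀
  have hfd : (forest G (T₀.map Fin.valEmbedding)).det = (fm (G.comap Fin.val) T₀).det := fmN_det G T₀
  have hprod : ∏ i ∈ T₀.map Fin.valEmbedding, (p i : ℤ) = ∏ i ∈ T₀, (p (i : ℕ) : ℤ) :=
    Finset.prod_map _ _ _
  rw [hprod, hfd]
  have hp' : Function.Injective fun i : Fin K => p i := fun a b h => Fin.ext (hp.injective h)
  have hG' : ∀ i j : Fin K, i ≠ j → ((G.comap Fin.val).Adj i j ↔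
      ¬ IsSquare ((p j : ℕ) : ZMod (p i))) := fun i j hij => by
    rw [SimpleGraph.comap_adj]
    exact hG i j fun h => hij (Fin.ext h)
  have hfin : ∀ {X Y Z : ZMod 2}, X = Y * Z → (X ≠ 0 ↔ Y ≠ 0 ∧ Z ≠ 0) := by
    intro X Y Z h
    rw [h, mul_ne_zero_iff]
  have h563 : 56 ≤ m := Nat.le_of_dvd hm h56
  cases c
  · -- `X_0(14)`
    have hNd : AdmD N := by
      have h := hadm
      unfold Adm at h
      rw [if_neg (by decide)] at h
      exact h
    have hNn : N.natAbs ∣ m := Int.natAbs_dvd_natAbs.2 hNm |>.trans (by rw [Int.natAbs_natCast])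
    have hlN : ∀ l ∈ N.natAbs.primeFactors, l.Prime ∧ (l : ℤ) ∣ N := fun l hl =>
      ⟨Nat.prime_of_mem_primeFactors hl, Int.natCast_dvd.2 (Nat.dvd_of_mem_primeFactors hl)⟩
    have hMc : (M false * N = N ∧ ∀ i : Fin K, ¬ 8 ∣ NN 1 (p i)) ∨
        (M false * N = -(q * N) ∧ ∀ i : Fin K, 8 ∣ NN 1 (p i)) := by
      rcases hM14 with ⟨h6, h7⟩ | ⟨h6, h7⟩
      · exact Or.inl ⟨by rw [h6, one_mul], fun i => h7 i⟩
      · exact Or.inr ⟨by rw [h6, neg_mul], fun i => h7 i⟩
    obtain ⟨h6, h7⟩ := mat14 (G.comap Fin.val) T₀ hp' (fun i => hpp i) h56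
      (fun i => hpr i) hr8 hr7 hG' hNd hNn hr
      (fun l hl => hrN' l (hlN l hl).1 (hlN l hl).2)
      ⟨hq, by omega, by omega⟩ hq3 (by omega) hqm
      (fun l hl => by
        obtain ⟨h8, h9⟩ := Finset.mem_filter.1 hl
        obtain ⟨h10, h11⟩ := hlN l h8
        refine hql l h10 ((Nat.dvd_of_mem_primeFactors h8).trans hNn) ⟨h9, ?_⟩
        rcases (hNd.2.2.2 l h10 h11).2 with h12 | h12
        · have := h12.2.2
          omega
        · have := h12.2.1
          omega)
      (fun i => hqp i) hMc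
    have e : N * M false * ∏ i ∈ T₀, (p (i : ℕ) : ℤ) = M false * N * ∏ i ∈ T₀, (p (i : ℕ) : ℤ) := by ring
    rw [e]
    refine ⟨?_, ?_⟩
    · unfold Adm
      rw [if_neg (by decide)]
      exact h6
    · rw [rz_iff, rz_iff, crit14 h6, crit14 hNd]
      exact hfin h7
  · -- `X_0(49)`
    have hNc : Class49 N := by
      have h := hadm
      unfold Adm at h
      rw [if_pos rfl] at h
      exact h
    obtain ⟨D, rfl, hD⟩ := Pool.Agent.Results.MP_8b7eba_nt.BothCurvesEveryGraph.class49 hNc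
    have hDm : D ∣ m := Int.natCast_dvd_natCast.1 hNm
    obtain ⟨M', hM'⟩ : ∃ M' : ℕ, M true * (D : ℤ) = M' := by
      rcases hM49 with ⟨h6, _⟩ | ⟨h6, _⟩
      · exact ⟨D, by rw [h6, one_mul]⟩
      · exact ⟨q' * D, by rw [h6]; push_cast; rfl⟩
    have hMc : (M' = D ∧ ∀ i : Fin K, nonfourth (p i) = 1) ∨
        (M' = q' * D ∧ ∀ i : Fin K, nonfourth (p i) = 0) := by
      rcases hM49 with ⟨h6, h7⟩ | ⟨h6, h7⟩
      · refine Or.inl ⟨?_, fun i => h7 i⟩
        rw [h6, one_mul] at hM'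
        exact_mod_cast hM'.symm
      · refine Or.inr ⟨?_, fun i => h7 i⟩
        rw [h6] at hM'
        exact_mod_cast hM'.symm
    obtain ⟨h6, h7⟩ := mat49 (G.comap Fin.val) T₀ hp' (fun i => hpp i)
      ((by norm_num : 28 ∣ 56).trans h56)
      (fun i => hpr i) (by omega) hr7 hG' hD hDm hr
      (fun l hl => hrN' l (Nat.prime_of_mem_primeFactors hl)
        (Int.natCast_dvd_natCast.2 (Nat.dvd_of_mem_primeFactors hl)))
      hq' (by omega) (by omega) hqm'
      (fun l hl => by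
        obtain ⟨h8, h9⟩ := Finset.mem_filter.1 hl
        have h10 := Nat.prime_of_mem_primeFactors h8
        have h11 := hD.2 l h8
        refine hql' l h10 ((Nat.dvd_of_mem_primeFactors h8).trans hDm) ⟨h11, ?_⟩
        have h12 := (Pool.Agent.R428.Q0.sq7_iff h10 h11).1 h9
        omega)
      (fun i => hqp' i) hMc
    have e : (D : ℤ) * M true * ∏ i ∈ T₀, (p (i : ℕ) : ℤ) = ((M' * ∏ i ∈ T₀, p i : ℕ) : ℤ) := by
      rw [mul_comm (D : ℤ), hM']
      push_cast
      rfl
    rw [e]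
    refine ⟨?_, ?_⟩
    · unfold Adm
      rw [if_pos rfl]
      refine ⟨?_, Int.squarefree_natCast.2 h6.1, fun l hl hld => ?_⟩
      · exact_mod_cast Nat.pos_of_ne_zero h6.1.ne_zero
      · exact h6.2 l (Nat.mem_primeFactors.2 ⟨hl, Int.natCast_dvd_natCast.1 hld, h6.1.ne_zero⟩)
    · rw [rz_iff, rz_iff, crit49 h6, crit49 hD]
      exact hfin h7

/-- the fields -/
theorem fields {p : ℕ → ℕ} (hp : StrictMono p) (hpp : ∀ i, (p i).Prime) {n : ℕ}
    {c : Bool} {N : ℤ} (T : Fin n → Finset ℕ)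
    (hT : ∀ J : Finset (Fin n), J.Nonempty → (symm T J).Nonempty)
    (h : ∀ J : Finset (Fin n), Adm c (N * ∏ i ∈ symm T J, (p i : ℤ)) ∧
      RankZeroShaTwo c (N * ∏ i ∈ symm T J, (p i : ℤ)))
    (K : Type) [Field K] [NumberField K]
    (hK : IsMultiquadratic (fun j => ∏ i ∈ T j, (p i : ℤ)) K) :
    Module.finrank ℚ K = 2 ^ n ∧ BSDZero K c N (∏ j, ∏ i ∈ T j, (p i : ℤ)) n := by
  classical
  obtain ⟨k, T', hT'⟩ := exists_map T
  obtain rfl : T = fun j => (T' j).map Fin.valEmbedding := funext hT'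
  have e1 : ∀ J, symm (fun j => (T' j).map Fin.valEmbedding) J =
      (Pool.Agent.R494.FG.odds T' J).map Fin.valEmbedding := fun J => oddsN_map T' J
  have e2 : ∀ A : Finset (Fin k), ∏ i ∈ A.map Fin.valEmbedding, (p i : ℤ) =
      ∏ i ∈ A, (p (i : ℕ) : ℤ) := fun A => Finset.prod_map _ _ _
  simp only [e2] at hK ⊢
  refine Pool.Agent.Results.MP_cd906c_nt.FieldsFromGraphs.main (p := fun i : Fin k => p i)
    (fun a b h => Fin.ext (hp.injective h)) (fun i => hpp i) T' (fun J hJ => ?_) (fun J => ?_) K hK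
  · have h1 := hT J hJ
    rw [e1, Finset.map_nonempty] at h1
    exact h1
  · have h1 := h J
    rw [e1, e2] at h1
    exact h1

/-- the field which is generated by some elements -/
theorem gen_top {F L : Type} [Field F] [Field L] [Algebra F L] {n : ℕ} (x : Fin n → L) :
    IntermediateField.adjoin F (Set.range fun i : Fin n =>
      (⟨x i, IntermediateField.subset_adjoin F _ ⟨i, rfl⟩⟩ : IntermediateField.adjoin F (Set.range x))) = ⊤ := by
  refine IntermediateField.map_injective (IntermediateField.adjoin F (Set.range x)).val ?_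
  rw [IntermediateField.adjoin_map, ← AlgHom.fieldRange_eq_map, IntermediateField.fieldRange_val]
  congr 1
  rw [← Set.range_comp]
  rfl

/-- finiteness over the field, for any structure of an algebra over `ℚ` -/
theorem fin_of {p : ℕ → ℕ} (hp : StrictMono p) (hpp : ∀ i, (p i).Prime) {n : ℕ}
    {c : Bool} {N : ℤ} (T : Fin n → Finset ℕ)
    (hT : ∀ J : Finset (Fin n), J.Nonempty → (symm T J).Nonempty)
    (h : ∀ J : Finset (Fin n), Adm c (N * ∏ i ∈ symm T J, (p i : ℤ)) ∧
      RankZeroShaTwo c (N * ∏ i ∈ symm T J, (p i : ℤ)))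
    (K : Type) [Field K] [CharZero K] [inst : Algebra ℚ K] [hfd : FiniteDimensional ℚ K]
    (x : Fin n → K) (hx : ∀ j, x j ^ 2 = ((∏ i ∈ T j, (p i : ℤ) : ℤ) : K))
    (hgen : IntermediateField.adjoin ℚ (Set.range x) = ⊤) : Finite (E K c N).toAffine.Point := by
  obtain rfl : inst = DivisionRing.toRatAlgebra := Subsingleton.elim _ _
  have : NumberField K := { to_charZero := inferInstance, to_finiteDimensional := hfd }
  exact (fields hp hpp T hT h K ⟨x, hx, hgen⟩).2.1

theorem base_eq (K : Type) [Field K] [Algebra ℚ K] (c : Bool) (N : ℤ) :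
    E K c N = (E ℚ c N).baseChange K := by
  unfold E WeierstrassCurve.baseChange WeierstrassCurve.map
  simp

end proof

open Classical in
/-- **The rank conjecture over infinite multiquadratic fields given by countable graphs.** -/
theorem result (𝒩 : Finset (Bool × ℤ)) (h𝒩 : ∀ e ∈ 𝒩, Adm e.1 e.2 ∧ RankZeroShaTwo e.1 e.2)
    (m r : ℕ) (hm : 0 < m) (h56 : 56 ∣ m) (h𝒩m : ∀ e ∈ 𝒩, e.2 ∣ (m : ℤ)) (hr : r.Coprime m)
    (hr8 : r % 8 = 1) (hr7 : r % 7 = 1 ∨ r % 7 = 2 ∨ r % 7 = 4)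
    (hr𝒩 : ∀ e ∈ 𝒩, ∀ l : ℕ, l.Prime → (l : ℤ) ∣ e.2 → IsSquare ((r : ℕ) : ZMod l))
    (g : ℕ → ℕ) (hg : Filter.Tendsto g .atTop .atTop)
    (t : ℕ → ℕ) (ht0 : t 0 = 0) (ht : StrictMono t) (G : SimpleGraph ℕ)
    (hG : ∀ j, ∀ i < t j, ∀ x y, t j ≤ x → x < t (j + 1) → t j ≤ y → y < t (j + 1) →
      (G.Adj i x ↔ G.Adj i y)) :
    ∃ q q' : ℕ, (q.Prime ∧ ¬ q ∣ m) ∧ (q'.Prime ∧ ¬ q' ∣ m) ∧ ∃ M : Bool → ℤ,
      (M false = 1 ∨ M false = -q) ∧ (M true = 1 ∨ M true = q') ∧
      ∃ p : ℕ → ℕ, StrictMono p ∧ (∀ i, (p i).Prime ∧ p i ≡ r [MOD m]) ∧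
        (∀ i j, i ≠ j → (G.Adj i j ↔ ¬ IsSquare ((p j : ℕ) : ZMod (p i)))) ∧
        (∀ j i, t j ≤ i → i < t (j + 1) → p i ≤ p (t j) + g (p (t j))) ∧
        (∀ (T : Finset ℕ), ∀ e ∈ 𝒩,
          RankZeroShaTwo e.1 (e.2 * M e.1 * ∏ i ∈ T, (p i : ℤ)) ↔ (forest G T).det ≠ 0) ∧
        (∀ (n : ℕ) (T : Fin n → Finset ℕ),
          (∀ J : Finset (Fin n), J.Nonempty → (symm T J).Nonempty) →
          (∀ J : Finset (Fin n), (forest G (symm T J)).det ≠ 0) →
          ∀ (K : Type) [Field K] [NumberField K],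
            IsMultiquadratic (fun j => ∏ i ∈ T j, (p i : ℤ)) K →
            Module.finrank ℚ K = 2 ^ n ∧
            ∀ e ∈ 𝒩, BSDZero K e.1 (e.2 * M e.1) (∏ j, ∏ i ∈ T j, (p i : ℤ)) n) ∧
        ∀ T : ℕ → Finset ℕ, (∀ J : Finset ℕ, J.Nonempty → (symm T J).Nonempty) →
          (∀ J : Finset ℕ, (forest G (symm T J)).det ≠ 0) →
          ∀ (L : Type) [Field L] [Algebra ℚ L] (x : ℕ → L),
            (∀ j, x j ^ 2 = ((∏ i ∈ T j, (p i : ℤ) : ℤ) : L)) →
            IntermediateField.adjoin ℚ (Set.range x) = ⊤ →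
            ∀ e ∈ 𝒩, ∀ P : (E L e.1 (e.2 * M e.1)).toAffine.Point, IsOfFinAddOrder P := by
  -- the colour
  obtain ⟨m₀, r₀, hm₀, hmm, hr₀, hcop, s, hs⟩ := Pool.Agent.R494.FG.exists_stable hm hr (by norm_num : 0 < 4)
    fun x => (if 8 ∣ Pool.Agent.Y687.NN 1 x then 2 else 0) +
      (if Pool.Agent.Results.MP_4a9ea6_nt.TwoPartTwistsX49.nonfourth x = 1 then 1 else 0)
  obtain ⟨q, hqB, hq, hq56, hql⟩ := Pool.Agent.Results.MP_8b7eba_nt.BothCurvesEveryGraph.aux_prod m hm
    (fun l => l % 8 = 1 ∧ l % 7 ≠ 0)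
    (fun l _ h => ⟨by omega, by rintro rfl; simp at h⟩) 3 m₀ (by norm_num)
  obtain ⟨q', hqB', hq', hq56', hql'⟩ := Pool.Agent.Results.MP_8b7eba_nt.BothCurvesEveryGraph.aux_prod m hm
    (fun l => l % 4 = 1 ∧ l % 7 ≠ 0)
    (fun l _ h => ⟨by omega, by rintro rfl; simp at h⟩) 5 m₀ (by norm_num)
  have hqm₀ : ¬ q ∣ m₀ := fun h => absurd (Nat.le_of_dvd hm₀ h) (by omega)
  have hqm₀' : ¬ q' ∣ m₀ := fun h => absurd (Nat.le_of_dvd hm₀ h) (by omega)
  have hqm : ¬ q ∣ m := fun h => hqm₀ (h.trans hmm)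
  have hqm' : ¬ q' ∣ m := fun h => hqm₀' (h.trans hmm)
  have h4m : 4 ∣ m := (by norm_num : 4 ∣ 56).trans h56
  have h56m : 56 ≤ m := Nat.le_of_dvd hm h56
  have hm₀' : m ≤ m₀ := Nat.le_of_dvd hm₀ hmm
  have hr04 : r₀ % 4 = 1 := by
    have h6 : r₀ ≡ r [MOD 4] := hr₀.of_dvd h4m
    rw [h6]
    omega
  obtain ⟨p, hp, h1, h2, h3⟩ := Pool.Agent.R494.FG.inf_seq _ hm₀ (h4m.trans hmm) hcop hr04 s hs {q, q'}
    (fun x hx => by
      rcases Finset.mem_insert.1 hx with rfl | hx
      · exact ⟨hq, by omega, hqm₀⟩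
      · obtain rfl := Finset.mem_singleton.1 hx
        exact ⟨hq', by omega, hqm₀'⟩) g hg t ht0 ht G hG
  have hpr : ∀ i, p i ≡ r [MOD m] := fun i => ((h1 i).2.1.of_dvd hmm).trans hr₀
  have hqp : ∀ i, ¬ IsSquare ((q : ℕ) : ZMod (p i)) := fun i =>
    (h1 i).2.2.2 q (Finset.mem_insert_self _ _)
  have hqp' : ∀ i, ¬ IsSquare ((q' : ℕ) : ZMod (p i)) := fun i =>
    (h1 i).2.2.2 q' (Finset.mem_insert_of_mem (Finset.mem_singleton_self _))
  obtain ⟨M, hM14, hM49⟩ : ∃ M : Bool → ℤ,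
      ((M false = 1 ∧ ∀ i, ¬ 8 ∣ Pool.Agent.Y687.NN 1 (p i)) ∨
        (M false = -q ∧ ∀ i, 8 ∣ Pool.Agent.Y687.NN 1 (p i))) ∧
      ((M true = 1 ∧ ∀ i, Pool.Agent.Results.MP_4a9ea6_nt.TwoPartTwistsX49.nonfourth (p i) = 1) ∨
        (M true = q' ∧ ∀ i, Pool.Agent.Results.MP_4a9ea6_nt.TwoPartTwistsX49.nonfourth (p i) = 0)) := by
    have h01 : ∀ x, Pool.Agent.Results.MP_4a9ea6_nt.TwoPartTwistsX49.nonfourth x = 0 ∨
        Pool.Agent.Results.MP_4a9ea6_nt.TwoPartTwistsX49.nonfourth x = 1 := by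
      intro x
      unfold Pool.Agent.Results.MP_4a9ea6_nt.TwoPartTwistsX49.nonfourth
      split_ifs
      · exact Or.inl rfl
      · exact Or.inr rfl
    have hcol : ∀ i, ((if 8 ∣ Pool.Agent.Y687.NN 1 (p i) then 2 else 0) +
      (if Pool.Agent.Results.MP_4a9ea6_nt.TwoPartTwistsX49.nonfourth (p i) = 1 then 1 else 0) : Fin 4) = s :=
      fun i => (h1 i).2.2.1
    refine ⟨fun c => if c = true then (if s = 1 ∨ s = 3 then 1 else (q' : ℤ)) else
      (if s = 0 ∨ s = 1 then 1 else -(q : ℤ)), ?_, ?_⟩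
    · by_cases h : s = 0 ∨ s = 1
      · refine Or.inl ⟨by simp [h], fun i h8 => ?_⟩
        have hx := hcol i
        rw [if_pos h8] at hx
        split_ifs at hx
        · rcases h with rfl | rfl <;> exact absurd hx (by decide)
        · rcases h with rfl | rfl <;> exact absurd hx (by decide)
      · refine Or.inr ⟨by simp [h], fun i => ?_⟩
        by_contra h8
        have hx := hcol i
        rw [if_neg h8] at hx
        refine h ?_
        split_ifs at hx
        · exact Or.inr hx.symm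
        · exact Or.inl hx.symm
    · by_cases h : s = 1 ∨ s = 3
      · refine Or.inl ⟨by simp [h], fun i => ?_⟩
        by_contra h8
        have hx := hcol i
        rw [if_neg h8] at hx
        split_ifs at hx
        · rcases h with rfl | rfl <;> exact absurd hx (by decide)
        · rcases h with rfl | rfl <;> exact absurd hx (by decide)
      · refine Or.inr ⟨by simp [h], fun i => ?_⟩
        rcases h01 (p i) with h9 | h9
        · exact h9
        · exfalso
          have hx := hcol i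
          rw [if_pos h9] at hx
          refine h ?_
          split_ifs at hx
          · exact Or.inr (by rw [← hx]; decide)
          · exact Or.inl (by rw [← hx]; decide)
  have hcrit : ∀ e ∈ 𝒩, ∀ T : Finset ℕ, Adm e.1 (e.2 * M e.1 * ∏ i ∈ T, (p i : ℤ)) ∧
      (RankZeroShaTwo e.1 (e.2 * M e.1 * ∏ i ∈ T, (p i : ℤ)) ↔
        RankZeroShaTwo e.1 e.2 ∧ (forest G T).det ≠ 0) := fun e he T =>
    crit hp (fun i => (h1 i).1) hm h56 hpr hr hr8 hr7 h2 hq hq56 (by omega) hqm hql hqp hq' hq56' hqm' hql' hqp'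
      hM14 hM49 (h𝒩 e he).1 (h𝒩m e he) (hr𝒩 e he) T
  have hfields : ∀ (n : ℕ) (T : Fin n → Finset ℕ),
      (∀ J : Finset (Fin n), J.Nonempty → (symm T J).Nonempty) →
      (∀ J : Finset (Fin n), (forest G (symm T J)).det ≠ 0) →
      ∀ (K : Type) [Field K] [NumberField K],
        IsMultiquadratic (fun j => ∏ i ∈ T j, (p i : ℤ)) K →
        ∀ e ∈ 𝒩, Module.finrank ℚ K = 2 ^ n ∧
          BSDZero K e.1 (e.2 * M e.1) (∏ j, ∏ i ∈ T j, (p i : ℤ)) n := by
    intro n T hT hdet K _ _ hK e he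
    refine fields hp (fun i => (h1 i).1) T hT (fun J => ?_) K hK
    obtain ⟨h4, h5⟩ := hcrit e he (symm T J)
    exact ⟨h4, h5.2 ⟨(h𝒩 e he).2, hdet J⟩⟩
  refine ⟨q, q', ⟨hq, hqm⟩, ⟨hq', hqm'⟩, M, hM14.imp (fun h => h.1) (fun h => h.1),
    hM49.imp (fun h => h.1) (fun h => h.1), p, hp, fun i => ⟨(h1 i).1, hpr i⟩, h2, ?_, ?_, ?_, ?_⟩
  · intro j i hji hi
    rcases Nat.eq_or_lt_of_le hji with rfl | h
    · omega
    · exact h3 j (t j) i le_rfl h hi
  · intro T e he
    rw [(hcrit e he T).2]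
    exact ⟨fun h => h.2, fun h => ⟨(h𝒩 e he).2, h⟩⟩
  · intro n T hT hdet K _ _ hK
    refine ⟨?_, fun e he => (hfields n T hT hdet K hK e he).2⟩
    obtain ⟨k, T', hT'⟩ := Pool.Agent.R494.FG.exists_map T
    obtain rfl : T = fun j => (T' j).map Fin.valEmbedding := funext hT'
    obtain ⟨x, hx, hgen⟩ := hK
    have e2 : ∀ A : Finset (Fin k), ∏ i ∈ A.map Fin.valEmbedding, (p i : ℤ) =
      ∏ i ∈ A, (p (i : ℕ) : ℤ) := fun A => Finset.prod_map _ _ _
    refine Pool.Agent.R494.FG.degree (d := fun j => ∏ i ∈ (T' j).map Fin.valEmbedding, (p i : ℤ))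
      (fun J hJ => ?_) K x hx hgen
    simp only [e2]
    rw [Pool.Agent.R494.FG.prod_odds T' J fun i => (p (i : ℕ) : ℤ)]
    refine Pool.Agent.Results.MP_cd906c_nt.FieldsFromGraphs.not_sq (p := fun i : Fin k => p i)
      (fun a b h => Fin.ext (hp.injective h)) (fun i => (h1 i).1) ?_ (Finset.prod_ne_zero_iff.2 fun i _ =>
      pow_ne_zero _ (by exact_mod_cast (h1 i).1.ne_zero))
    have h4 := hT J hJ
    rw [show symm (fun j => (T' j).map Fin.valEmbedding) J =
      (Pool.Agent.R494.FG.odds T' J).map Fin.valEmbedding from Pool.Agent.R494.FG.oddsN_map T' J, Finset.map_nonempty] at h4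
    exact h4
  · intro T hT hdet L _ _ x hx hgen e he
    rw [base_eq]
    refine Pool.Agent.R494.FG.tors_union _ fun a b => ?_
    obtain ⟨n, ha, hb⟩ : ∃ n : ℕ, a ∈ IntermediateField.adjoin ℚ (Set.range fun i : Fin n => x i) ∧
        b ∈ IntermediateField.adjoin ℚ (Set.range fun i : Fin n => x i) := by
      have key : ∀ a : L, ∃ n : ℕ, ∀ n' ≥ n,
          a ∈ IntermediateField.adjoin ℚ (Set.range fun i : Fin n' => x i) := by
        intro a
        have ha : a ∈ IntermediateField.adjoin ℚ (Set.range x) := by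
          rw [hgen]
          exact IntermediateField.mem_top
        obtain ⟨S, hS, haS⟩ := IntermediateField.exists_finset_of_mem_adjoin ha
        have h5 : ∃ n : ℕ, ∀ y ∈ S, ∃ i < n, x i = y := by
          have h6 : ∀ y ∈ S, ∃ i, x i = y := fun y hy => hS hy
          choose! i hi using h6
          refine ⟨S.sup i + 1, fun y hy => ⟨i y, ?_, hi y hy⟩⟩
          have := Finset.le_sup (f := i) hy
          omega
        obtain ⟨n, hn⟩ := h5
        refine ⟨n, fun n' hn' => ?_⟩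
        refine IntermediateField.adjoin.mono ℚ _ _ ?_ haS
        intro y hy
        obtain ⟨i, hi, rfl⟩ := hn y hy
        exact ⟨⟨i, by omega⟩, rfl⟩
      obtain ⟨n₁, h5⟩ := key a
      obtain ⟨n₂, h6⟩ := key b
      exact ⟨max n₁ n₂, h5 _ (le_max_left _ _), h6 _ (le_max_right _ _)⟩
    refine ⟨IntermediateField.adjoin ℚ (Set.range fun i : Fin n => x i), ha, hb, ?_⟩
    set K := IntermediateField.adjoin ℚ (Set.range fun i : Fin n => x i) with hK
    have hint : ∀ i : Fin n, IsIntegral ℚ (x i) := by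
      intro i
      refine IsIntegral.of_pow (n := 2) (by norm_num) ?_
      rw [hx i]
      have h5 : ((∏ l ∈ T i, (p l : ℤ) : ℤ) : L) =
          algebraMap ℚ L ((∏ l ∈ T i, (p l : ℤ) : ℤ) : ℚ) := (map_intCast (algebraMap ℚ L) _).symm
      rw [h5]
      exact isIntegral_algebraMap
    have hfd : FiniteDimensional ℚ K := by
      rw [hK]
      refine IntermediateField.finiteDimensional_adjoin ?_
      rintro y ⟨i, rfl⟩
      exact hint i
    let x' : Fin n → K := fun i => ⟨x i, IntermediateField.subset_adjoin ℚ _ ⟨i, rfl⟩⟩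
    have hx' : ∀ i : Fin n, x' i ^ 2 = ((∏ l ∈ T i, (p l : ℤ) : ℤ) : K) := fun i => by
      refine Subtype.ext ?_
      push_cast
      have := hx i
      push_cast at this
      exact this
    have hgen' : @IntermediateField.adjoin ℚ _ K _ K.algebra' (Set.range x') = ⊤ :=
      gen_top (fun i : Fin n => x i)
    have h7 : ∀ J : Finset (Fin n), symm (fun i : Fin n => T i) J = symm T (J.map Fin.valEmbedding) :=
      fun J => Pool.Agent.R494.FG.oddsN_comp T (Fin.valEmbedding (n := n)) J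
    have hres := @fin_of p hp (fun i => (h1 i).1) n e.1 (e.2 * M e.1) (fun i : Fin n => T i)
      (fun J hJ => ?_) (fun J => ?_) K _ (charZero_of_injective_algebraMap (algebraMap ℚ K).injective)
      K.algebra' hfd x' hx' hgen'
    · rw [base_eq] at hres
      exact hres
    · rw [h7]
      exact hT _ (Finset.map_nonempty.2 hJ)
    · rw [h7]
      obtain ⟨h4, h5⟩ := hcrit e he (symm T (J.map Fin.valEmbedding))
      exact ⟨h4, h5.2 ⟨(h𝒩 e he).2, hdet _⟩⟩

end Pool.Agent.Results.MP_32c55d_nt.InfiniteGraphFields
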