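import Pool.Agent.R430.T1

/-!
# The Birch and Swinnerton-Dyer rank conjecture for `y² + y = x³` over the multiquadratic extensions
# of every quadratic extension of `ℚ(√-3)` with good ramification, and over their subfields

Call a prime of a number field good when `2` is not a cube modulo it.  Let `F = ℚ(√-3)`, let `N/F` be
a quadratic extension in which only good primes ramify (any class number), let `K/N` be a Galois
extension of exponent two in which only good primes ramify, and let `k` be any field with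
`k(√-3) = K`, for example `k = K`.  For `E : y² + y = x³` we prove the conclusion of the frozen
statement `S16511` for `(k, E)`, and that `E(k)` is finite.

Example: `k₀` is a quadratic field in which only primes ramify modulo which `2` is not a cube, and
`k/k₀` is Galois of exponent two with the same condition (`N = k₀(√-3)`, `K = k(√-3)`).

The quadratic reciprocity law over `N` is proved here, in terms of ideals; the L-functions of `E/N`
twisted by ray class characters are continued and evaluated modulo the primes above two by means of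
lattices `𝔞 ⊂ N` that need not be principal, and of a unit of infinite order.
-/

set_option autoImplicit false

open NumberField IsDedekindDomain
open scoped Classical

namespace Pool.Agent.Results.MP_32c55d_nt.QuadraticBaseRank

/-- only primes modulo which `2` is not a cube ramify in `K/F`: if `σ ≠ 1` lies in the inertia group of
the prime `w` of `K`, then `2` is not a cube modulo the prime of `F` below `w` -/
def GoodRam (F K : Type) [Field F] [NumberField F] [Field K] [NumberField K] [Algebra F K] : Prop :=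
  ∀ (w : HeightOneSpectrum (𝓞 K)) (σ : Gal(K/F)), (∀ x : 𝓞 K, σ • x - x ∈ w.asIdeal) → σ ≠ 1 →
    ∀ α : 𝓞 F, α ^ 3 - 2 ∉ w.asIdeal.under (𝓞 F)

/-- `Φ` is an Artin map modulo the ideal `𝔪` of the Galois extension `K/F` (`F` has no real place): on
the non-zero ideals prime to `𝔪` it is multiplicative, it is trivial on the ideals `(α)` with
`α - 1 ∈ 𝔪`, `α ≠ 0`, the inertia groups of the primes of `K` not above a prime divisor of `𝔪` are
trivial, and `Φ(𝔭)` acts as a Frobenius automorphism at the primes of `K` above `𝔭`, `𝔭 ∤ 𝔪` -/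
structure ArtinMap {F K : Type} [Field F] [NumberField F] [Field K] [NumberField K] [Algebra F K]
    (𝔪 : Ideal (𝓞 F)) (Φ : Ideal (𝓞 F) → Gal(K/F)) : Prop where
  mul : ∀ I J : Ideal (𝓞 F), I ≠ ⊥ → J ≠ ⊥ → IsCoprime I 𝔪 → IsCoprime J 𝔪 → Φ (I * J) = Φ I * Φ J
  ray : ∀ α : 𝓞 F, α ≠ 0 → α - 1 ∈ 𝔪 → Φ (Ideal.span {α}) = 1
  unram : ∀ w : HeightOneSpectrum (𝓞 K), ¬ 𝔪 ≤ w.asIdeal.under (𝓞 F) →
    ∀ σ : Gal(K/F), (∀ x : 𝓞 K, σ • x - x ∈ w.asIdeal) → σ = 1
  frob : ∀ w : HeightOneSpectrum (𝓞 K), ¬ 𝔪 ≤ w.asIdeal.under (𝓞 F) → ∀ x : 𝓞 K,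
    Φ (w.asIdeal.under (𝓞 F)) • x - x ^ Nat.card (𝓞 F ⧸ w.asIdeal.under (𝓞 F)) ∈ w.asIdeal

/-- **Main theorem.**  Let `F = ℚ(√-3)`, let `N/F` be a quadratic extension and `K/N` a Galois
extension, only good primes being ramified in `N/F`.  Suppose that `Gal(K/N)` has exponent `2` and only
good primes ramify in `K/N`, or that `K/N` is abelian of degree `2 ^ n` and has an Artin map modulo an
ideal `𝔪 ≠ 0` with only good prime divisors.  Let `k` be a field with `k(√-3) = K` and
`E : y² + y = x³`.  Then `E(k)` is finite, and the L-series of `E/k` continues analytically from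
`Re s > 3/2` to a connected open set containing `1`, where its order of vanishing is equal to the rank
of `E(k)`. -/
theorem result : ∀ (F N K k : Type) [Field F] [NumberField F] [IsCyclotomicExtension {3} ℚ F]
    [Field N] [NumberField N] [Algebra F N] [Field K] [NumberField K] [Algebra N K] [IsGalois N K]
    [Field k] [NumberField k] [Algebra k K],
    Module.finrank F N = 2 → GoodRam F N →
    ((GoodRam N K ∧ ∀ σ : Gal(K/N), σ * σ = 1) ∨
      ((∃ n : ℕ, Module.finrank N K = 2 ^ n) ∧ (∀ σ τ : Gal(K/N), σ * τ = τ * σ) ∧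
        ∃ 𝔪 : Ideal (𝓞 N), 𝔪 ≠ ⊥ ∧
          (∀ v : HeightOneSpectrum (𝓞 N), 𝔪 ≤ v.asIdeal → ∀ α : 𝓞 N, α ^ 3 - 2 ∉ v.asIdeal) ∧
          ∃ Φ : Ideal (𝓞 N) → Gal(K/N), ArtinMap 𝔪 Φ)) →
    (∃ a : K, a ^ 2 = -3 ∧ IntermediateField.adjoin k {a} = ⊤) →
    ∀ E : WeierstrassCurve k, E = ⟨0, 0, 1, 0, 0⟩ →
      Finite E.toAffine.Point ∧
      ∃ (U : Set ℂ) (Φ : ℂ → ℂ),
        IsOpen U ∧ IsConnected U ∧ {s : ℂ | (3 / 2 : ℝ) < s.re} ⊆ U ∧ (1 : ℂ) ∈ U ∧
        AnalyticOnNhd ℂ Φ U ∧ (∀ s : ℂ, (3 / 2 : ℝ) < s.re → Φ s = E.LSeries s) ∧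
        (∀ r : ℕ, r < Module.finrank ℤ E.toAffine.Point → iteratedDeriv r Φ 1 = 0) ∧
        iteratedDeriv (Module.finrank ℤ E.toAffine.Point) Φ 1 ≠ 0 := by
  intro F N K k _ _ _ _ _ _ _ _ _ _ _ _ _ h2 hg hcase hk E hE
  subst hE
  have hyp : Pool.Agent.R430.Hyp N K := by
    rcases hcase with ⟨h3, h4⟩ | ⟨hn, hcomm, 𝔪, h𝔪, hgood, Φ, hΦ⟩
    · exact Or.inl ⟨h3, h4⟩
    · exact Or.inr ⟨hn, hcomm, 𝔪, h𝔪, hgood, Φ, hΦ.mul, hΦ.ray, hΦ.unram, hΦ.frob⟩
  exact Pool.Agent.R430.rankZero_of (Pool.Agent.R430.all_k h2 hg hyp hk)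

end Pool.Agent.Results.MP_32c55d_nt.QuadraticBaseRank
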