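import Pool.Agent.R901.EC.Fields
import Pool.Agent.R901.EC.X11
import Pool.Agent.Y18.LP.Main

/-!
# The rank conjecture for a uniform positive proportion of the abelian 2-extensions in every group

`E_1, …, E_m` are elliptic curves over `ℚ`, given with their newforms, of negative discriminant, with
trivial 2-Selmer group over `ℚ` and with `L(E_i, 1) ≠ 0`.  A prime `q` is admissible if `q ∤ 6Δ_i` and
the number of the points of `E_i` over `ℤ/q` is odd for all `i`.  Let `n` and `r` be given.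

Theorem: there is a number `V` such that for every group `H`, finite or infinite and as sparse as one
likes, of Dirichlet characters of order dividing `2 ^ n` and of squarefree conductors composed of
admissible primes, the following holds for a proportion at least `2 ^ (-V)` of the `r`-tuples
`(χ_1, …, χ_r)` in `H`: for all number fields `F` contained in the abelian extension of `ℚ` attached to
the group generated by `χ_1, …, χ_r` and all `i` the Hasse-Weil `L`-function `L(E_i/F, s)` is entire,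
its order of vanishing at `s = 1` is the rank of `E_i(F)`, and both are `0`.  The curve `X_0(11)`
satisfies the hypotheses.

For `n = 1` these are all the multiquadratic fields `F = ℚ(√D_1, …, √D_r)` with discriminants `D_j` in a
given group.

The proof.  The characters in `H` with `χ(p) = 1` for the primes `p` dividing `2 Δ_i` for some `i` form
a subgroup `H_1` of index at most `2 ^ (n s)`, `s` the number of these primes.  The analytic part
(`Y18/LP`) gives a set `K` of at most `2 ^ {V_0}` tuples in `H_1` such that every tuple in `H_1` can be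
multiplied by an element of `K` so that `L(E_i/F, 1) ≠ 0` for the fields `F` of the product.  On the
algebraic side, every such `F` is an abelian extension of `ℚ` of degree `2 ^ j` which is ramified
at admissible primes only and in which the primes dividing `2 Δ_i` split completely, so that
`Sel_2(E_i/F) = 0` and `E_i(F)` is finite.
-/

set_option autoImplicit false

open Complex UpperHalfPlane MatrixGroups CongruenceSubgroup NumberField IsDedekindDomain

namespace Pool.Agent.Results.MP_32c55d_nt.UniformProportionOfFields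

/-- `N_p`: the number of pairs `(x, y) ∈ (ℤ/p)²` with `y² = x³ + a x + b`. -/
noncomputable def pointCount (a b : ℤ) (p : ℕ) : ℕ :=
  Nat.card {q : ZMod p × ZMod p // q.2 ^ 2 = q.1 ^ 3 + (a : ZMod p) * q.1 + (b : ZMod p)}

/-- `p` is a prime not dividing `2 Δ`, `Δ = -4 a³ - 27 b²`. -/
def GoodPrime (a b : ℤ) (p : ℕ) : Prop :=
  p.Prime ∧ ¬ ((p : ℤ) ∣ 2 * (-4 * a ^ 3 - 27 * b ^ 2))

open Classical in
/-- `L(E, 1) ≠ 0` for `E : y² = x³ + a x + b`: there is an entire function `F` which for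
`Re s > 3/2` is the incomplete L-series `∏_{p ∤ 2Δ} (1 - a_p p^{-s} + p^{1-2s})⁻¹`, `a_p = p - N_p`,
of `E` over `ℚ`, and `F(1) ≠ 0`. -/
def AnalyticRankZero (a b : ℤ) : Prop :=
  ∃ F : ℂ → ℂ, (Differentiable ℂ F ∧ ∀ s : ℂ, (3 : ℝ) / 2 < s.re →
    HasProd (fun p : ℕ => if GoodPrime a b p then
      (1 - ((p : ℂ) - (pointCount a b p : ℂ)) * (p : ℂ) ^ (-s) + (p : ℂ) ^ (1 - 2 * s))⁻¹ else 1)
      (F s)) ∧ F 1 ≠ 0

/-- `q` is a prime, `q ∤ 2 Δ`, and the number `N_q + 1` of the points of `E : y² = x³ + a x + b` over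
`ℤ/q` (with the point at infinity) is odd. -/
def Admissible (a b : ℤ) (q : ℕ) : Prop := GoodPrime a b q ∧ ¬ 2 ∣ pointCount a b q + 1

/-- The families `c = (c_q)` of characters `c_q` of the groups `(ℤ/q)ˣ`.  The family with `c_q = 1`
except for the primes `q` of a finite set stands for the Dirichlet character `χ_c = ∏ c_q` of
squarefree conductor; this is an isomorphism of groups. -/
abbrev Fam : Type := (q : ℕ) → (ZMod q)ˣ →* ℂˣ

open Classical in
/-- The set of the `q` with `c_q ≠ 1` (if it is finite). -/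
noncomputable def supp (c : Fam) : Finset ℕ :=
  if h : {q | c q ≠ 1}.Finite then h.toFinset else ∅

/-- The conductor of `χ_c`. -/
noncomputable def conductor (c : Fam) : ℕ := ∏ q ∈ supp c, q

/-- The value `χ_c(m)`. -/
noncomputable def value (c : Fam) (m : ℕ) : ℂ :=
  ∏ q ∈ supp c, if h : m.Coprime q then (c q (ZMod.unitOfCoprime m h) : ℂ) else 0

open Classical in
/-- The Gaussian period `∑ exp(2 π i u / M)`, `0 ≤ u < M`, `χ_c(u) = 1`, where `M` is the conductor of
`χ_c`.  It generates the cyclic extension of `ℚ` attached to `χ_c` (the subfield of `ℚ(exp(2 π i / M))`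
fixed by the kernel of `χ_c`; recall that `M` is squarefree). -/
noncomputable def period (c : Fam) : ℂ :=
  ∑ u ∈ (Finset.range (conductor c)).filter (fun u => value c u = 1),
    Complex.exp (2 * Real.pi * Complex.I / (conductor c : ℕ)) ^ u

/-- `H` is a group of Dirichlet characters of order dividing `2 ^ n` and of squarefree conductors
composed of primes admissible for all the curves. -/
structure IsCharGroup {m : ℕ} (a b : Fin m → ℤ) (n : ℕ) (H : Subgroup Fam) : Prop where
  pow : ∀ c ∈ H, c ^ (2 ^ n) = 1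
  finite : ∀ c ∈ H, {q | c q ≠ 1}.Finite
  admissible : ∀ c ∈ H, ∀ q, c q ≠ 1 → q.Prime ∧ ∀ i, Admissible (a i) (b i) q

/-- The `n`-th Fourier coefficient of `f`. -/
noncomputable def coef {N : ℕ} (f : CuspForm (Gamma0 N : Subgroup (GL (Fin 2) ℝ)) 2) (n : ℕ) : ℂ :=
  (qExpansion 1 f).coeff n

/-- `f ∈ S_2(Γ₀(N))` is the newform of the elliptic curve `E : y² = x³ + a x + b`, with its standard
properties: the Fourier coefficients `c(n)` of `f` are real with `c(1) = 1`, they satisfy the Hecke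
relations `c(mn) = c(m) c(n)` for coprime `m`, `n` and `c(p^(j+2)) = c(p) c(p^(j+1)) - p c(p^j)`
(without the last term if `p ∣ N`) and the bounds `|c(p)| ≤ 2√p` for `p ∤ N`, `|c(p)| ≤ 1` for
`p ∣ N`; `f` is an eigenfunction of the Fricke involution: `f(-1/(Nτ)) = -w N τ² f(τ)` with `w = ±1`;
for all primes `p ∤ 2Δ` one has `p ∤ N` and `c(p) = a_p(E)`.  (Every elliptic curve over `ℚ` has such a
form by the modularity theorem.) -/
structure IsFormOf (a b : ℤ) (N : ℕ) (f : CuspForm (Gamma0 N : Subgroup (GL (Fin 2) ℝ)) 2) :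
    Prop where
  one : coef f 1 = 1
  real : ∀ n, (coef f n).im = 0
  mul : ∀ m n : ℕ, Nat.Coprime m n → coef f (m * n) = coef f m * coef f n
  pow : ∀ p j : ℕ, p.Prime → coef f (p ^ (j + 2)) = coef f p * coef f (p ^ (j + 1)) -
      (if p ∣ N then 0 else (p : ℂ) * coef f (p ^ j))
  good : ∀ p : ℕ, p.Prime → ¬ p ∣ N → ‖coef f p‖ ≤ 2 * Real.sqrt p
  bad : ∀ p : ℕ, p.Prime → p ∣ N → ‖coef f p‖ ≤ 1
  fricke : ∃ w : ℝ, (w = 1 ∨ w = -1) ∧ ∀ τ τ' : ℍ, (τ' : ℂ) * ((N : ℂ) * (τ : ℂ)) = -1 →
    f τ' = -(w : ℂ) * (N : ℂ) * (τ : ℂ) ^ 2 * f τ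
  points : ∀ p : ℕ, GoodPrime a b p → ¬ p ∣ N ∧ coef f p = (p : ℂ) - (pointCount a b p : ℂ)

/-- `pw t u n = α ^ n + β ^ n`, where `α`, `β` are the roots of `X² - t X + u`. -/
noncomputable def pw (t u : ℂ) : ℕ → ℂ
  | 0 => 2
  | 1 => t
  | n + 2 => t * pw t u (n + 1) - u * pw t u n

section
variable {F : Type} [Field F] [NumberField F]

/-- The number `a_v` of `E : y² = x³ + a x + b` at a finite place `v` of `F`: `Nv` minus the number of
affine solutions `(x, y)` of the equation over the residue field `𝓞 F / v`. -/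
noncomputable def av (a b : ℤ) (v : HeightOneSpectrum (𝓞 F)) : ℤ :=
  ((Ideal.absNorm v.asIdeal : ℕ) : ℤ) -
    ((Nat.card {x : (𝓞 F ⧸ v.asIdeal) × (𝓞 F ⧸ v.asIdeal) //
      x.2 ^ 2 = x.1 ^ 3 + (a : 𝓞 F ⧸ v.asIdeal) * x.1 + (b : 𝓞 F ⧸ v.asIdeal)} : ℕ) : ℤ)

open Classical in
/-- The Euler factor of `L(E/F, s)` at the finite place `v` of `F`.  If `v ∤ 2 Δ`, it is
`(1 - a_v (Nv)^(-s) + (Nv)^(1-2s))⁻¹`.  If `v ∣ 2 Δ` and `Nv = p ^ d` with `p` prime, it is
`(1 - (α^d + β^d) (Nv)^(-s) + (Nv)^(1-2s))⁻¹` for `p ∤ N`, where `α`, `β` are the roots of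
`X² - c(p) X + p`, and `(1 - c(p)^d (Nv)^(-s))⁻¹` for `p ∣ N`.  (The primes `p ∣ 2 Δ` will be
unramified in `F`, so that this is the Hasse-Weil factor.) -/
noncomputable def factor (a b : ℤ) {N : ℕ} (f : CuspForm (Gamma0 N : Subgroup (GL (Fin 2) ℝ)) 2)
    (s : ℂ) (v : HeightOneSpectrum (𝓞 F)) : ℂ :=
  if ((2 * (4 * a ^ 3 + 27 * b ^ 2) : ℤ) : 𝓞 F) ∈ v.asIdeal then
    (1 - pw (coef f (Ideal.absNorm v.asIdeal).minFac)
          (if (Ideal.absNorm v.asIdeal).minFac ∣ N then 0 else ((Ideal.absNorm v.asIdeal).minFac : ℂ))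
          ((Ideal.absNorm v.asIdeal).factorization (Ideal.absNorm v.asIdeal).minFac)
          * ((Ideal.absNorm v.asIdeal : ℕ) : ℂ) ^ (-s)
      + (if (Ideal.absNorm v.asIdeal).minFac ∣ N then (0 : ℂ) else
          ((Ideal.absNorm v.asIdeal : ℕ) : ℂ) ^ (1 - 2 * s)))⁻¹
  else
    (1 - ((av a b v : ℤ) : ℂ) * ((Ideal.absNorm v.asIdeal : ℕ) : ℂ) ^ (-s)
      + ((Ideal.absNorm v.asIdeal : ℕ) : ℂ) ^ (1 - 2 * s))⁻¹

end

/-- The group `E(F)` for `E : y² = x³ + a x + b`. -/
abbrev Points (F : Type) [Field F] (a b : ℤ) : Type :=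
  (({ a₁ := 0, a₂ := 0, a₃ := 0, a₄ := (a : F), a₆ := (b : F) } : WeierstrassCurve F).toAffine).Point

open Classical in
/-- The rank conjecture holds for `E : y² = x³ + a x + b` (with newform `f`) over the number field
`F ⊂ ℂ`, and both sides are `0`: there is an entire function `G` which for `Re s > 3/2` is the
Euler product of `E` over all finite places of `F`, the order of vanishing of `G` at `s = 1` is the
rank of `E(F)`, and the rank is `0`. -/
def BSDRankZeroOver (F : IntermediateField ℚ ℂ) [NumberField F] (a b : ℤ) {N : ℕ}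
    (f : CuspForm (Gamma0 N : Subgroup (GL (Fin 2) ℝ)) 2) : Prop :=
  ∃ G : ℂ → ℂ, Differentiable ℂ G ∧
    (∀ s : ℂ, 3 / 2 < s.re → HasProd (fun v : HeightOneSpectrum (𝓞 F) => factor a b f s v) (G s)) ∧
    analyticOrderAt G 1 = ((Module.finrank ℤ (Points F a b) : ℕ) : ℕ∞) ∧
    Module.finrank ℤ (Points F a b) = 0

/-- The abelian extension of `ℚ` in `ℂ` attached to the group generated by `χ_1, …, χ_r`. -/
noncomputable def fieldOf {r : ℕ} (c : Fin r → Fam) : IntermediateField ℚ ℂ :=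
  IntermediateField.adjoin ℚ {x : ℂ | ∃ J : Fin r → ℕ, x = period (∏ j, c j ^ J j)}

/-- The set of the `r`-tuples of elements of `H`. -/
def Tuples (H : Subgroup Fam) (r : ℕ) : Set (Fin r → Fam) := {c | ∀ j, c j ∈ H}

/-- The property `P` holds for a proportion at least `2 ^ (-V)` of the `r`-tuples in `H`: there is a set
`K` of at most `2 ^ V` tuples in `H` such that every tuple in `H` can be multiplied by an element of `K`
so that the product has the property `P`; so the proportion of the tuples with `P` is at least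
`2 ^ (-V)` if `H` is finite, and if `H` is infinite, the number of the tuples with product of the
conductors at most `X` is at most `2 ^ V` times the number of the tuples with `P` and with product of
the conductors at most `C X`, `C` independent of `X`. -/
def ManyTuples (V : ℕ) (H : Subgroup Fam) (r : ℕ) (P : (Fin r → Fam) → Prop) : Prop :=
  (∃ K : Finset (Fin r → Fam), K.card ≤ 2 ^ V ∧ (K : Set (Fin r → Fam)) ⊆ Tuples H r ∧
    ∀ c ∈ Tuples H r, ∃ k ∈ K, P (fun j => c j * k j)) ∧
  ((H : Set Fam).Finite → (Tuples H r).ncard ≤ 2 ^ V * {c | c ∈ Tuples H r ∧ P c}.ncard) ∧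
  ∃ C : ℕ, ∀ X : ℕ, {c | c ∈ Tuples H r ∧ ∏ j, conductor (c j) ≤ X}.ncard ≤
    2 ^ V * {c | (c ∈ Tuples H r ∧ P c) ∧ ∏ j, conductor (c j) ≤ C * X}.ncard

/-- The coefficient `a = -27 c₄` of the short Weierstrass equation `y² = x³ + a x + b` of `W`. -/
def ca (W : WeierstrassCurve ℤ) : ℤ := -27 * W.c₄

/-- The coefficient `b = -54 c₆` of the short Weierstrass equation `y² = x³ + a x + b` of `W`. -/
def cb (W : WeierstrassCurve ℤ) : ℤ := -54 * W.c₆

/-- The 2-Selmer group of `W` over `ℚ` is trivial: `W(ℚ)` is finite of odd order and `Ш(W/ℚ)` has no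
element of order two. -/
def TrivialTwoSelmer (W : WeierstrassCurve ℤ) : Prop :=
  Finite (W.map (Int.castRingHom ℚ)).toAffine.Point ∧
  Odd (Nat.card (W.map (Int.castRingHom ℚ)).toAffine.Point) ∧
  ∀ s : Pool.Agent.TH841.NF.D.Sha (W.map (Int.castRingHom ℚ)), 2 • s = 0 → s = 0

/-- The curve `X_0(11) : y² + y = x³ - x² - 10 x - 20`. -/
def X11 : WeierstrassCurve ℤ := ⟨0, -1, 1, -10, -20⟩

theorem pw_eq (t u : ℂ) : ∀ n : ℕ, pw t u n = W165.CE.pw t u n
  | 0 => rfl
  | 1 => rfl
  | n + 2 => by rw [pw, W165.CE.pw, pw_eq t u (n + 1), pw_eq t u n]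

theorem factor_eq {F : Type} [Field F] [NumberField F] (a b : ℤ) {N : ℕ}
    (f : CuspForm (Gamma0 N : Subgroup (GL (Fin 2) ℝ)) 2) (s : ℂ) (v : HeightOneSpectrum (𝓞 F)) :
    factor a b f s v = W165.CE.fac a b N (Pool.Agent.Y18.BSD.co f) s v := by
  unfold factor W165.CE.fac
  rw [pw_eq]
  rfl

theorem bsd_of {F : IntermediateField ℚ ℂ} [NumberField F] {a b : ℤ} {N : ℕ}
    {f : CuspForm (Gamma0 N : Subgroup (GL (Fin 2) ℝ)) 2} (h : Pool.Agent.Y18.NF.RZ F a b f)
    (hfin : Finite (Points F a b)) : BSDRankZeroOver F a b f := by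
  classical
  obtain ⟨G, h1, h2, h3⟩ := h
  have h0 : Module.finrank ℤ (Points F a b) = 0 := by
    apply Module.IsTorsion.finrank_eq_zero
    intro P
    refine ⟨⟨(Nat.card (Points F a b) : ℤ), ?_⟩, ?_⟩
    · rw [mem_nonZeroDivisors_iff_ne_zero]
      exact_mod_cast Nat.card_pos.ne'
    · show (Nat.card (Points F a b) : ℤ) • P = 0
      rw [natCast_zsmul]
      exact card_nsmul_eq_zero'
  refine ⟨G, h1, fun s hs => ?_, ?_, h0⟩
  · refine (congrArg (fun g => HasProd g (G s)) (funext fun v => ?_)).mp (h2 s hs)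
    exact (factor_eq a b f s v).symm
  · rw [h0]
    exact analyticOrderAt_eq_zero.2 (Or.inr h3)

/-- **Theorem.** (1) Let `W_1, …, W_m` be elliptic curves over `ℚ` of negative discriminant, with
trivial 2-Selmer group and `L(W_i, 1) ≠ 0`, and with newforms `f_i`, and let `n`, `r` be given. There is
`V` such that for every group `H` of Dirichlet characters of order dividing `2 ^ n` and of squarefree
conductors composed of primes `q` of good reduction modulo which all the `W_i` have an odd number of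
points the rank conjecture holds, with rank `0`, for all `i` over all number fields `F ⊂ ℂ` contained in
the abelian extension attached to `χ_1, …, χ_r`, for a proportion at least `2 ^ (-V)` of the tuples
`(χ_1, …, χ_r)` in `H`.

(2) The curve `X_0(11)` satisfies the hypotheses of (1). -/
theorem result :
    (∀ (m : ℕ) (W : Fin m → WeierstrassCurve ℤ) (N : Fin m → ℕ)
      (f : (i : Fin m) → CuspForm (Gamma0 (N i) : Subgroup (GL (Fin 2) ℝ)) 2),
      (∀ i, (W i).Δ < 0) → (∀ i, TrivialTwoSelmer (W i)) → (∀ i, N i ≠ 0) →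
      (∀ i, IsFormOf (ca (W i)) (cb (W i)) (N i) (f i)) →
      (∀ i, AnalyticRankZero (ca (W i)) (cb (W i))) →
      ∀ n r : ℕ, ∃ V : ℕ, ∀ H : Subgroup Fam,
        IsCharGroup (fun i => ca (W i)) (fun i => cb (W i)) n H →
        ManyTuples V H r (fun c => ∀ (F : IntermediateField ℚ ℂ) [NumberField F], F ≤ fieldOf c →
          ∀ i, BSDRankZeroOver F (ca (W i)) (cb (W i)) (f i))) ∧
    (X11.Δ < 0 ∧ TrivialTwoSelmer X11 ∧ (∃ f : CuspForm (Gamma0 11 : Subgroup (GL (Fin 2) ℝ)) 2,
      IsFormOf (ca X11) (cb X11) 11 f) ∧ AnalyticRankZero (ca X11) (cb X11)) := by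
  refine ⟨?_, ?_, ?_, ?_, ?_⟩
  · intro m W N f hΔ hS hN hf h0 n r
    have : ∀ i, NeZero (N i) := fun i => ⟨hN i⟩
    have hne : ∀ i, 4 * ca (W i) ^ 3 + 27 * cb (W i) ^ 2 ≠ 0 := by
      intro i
      have h1 : 4 * ca (W i) ^ 3 + 27 * cb (W i) ^ 2 = -136048896 * (W i).Δ :=
        Pool.Agent.R901.EC.ca_cb (W i)
      rw [h1]
      exact mul_ne_zero (by norm_num) (hΔ i).ne
    obtain ⟨V0, hV0⟩ := Pool.Agent.Y18.LP.fields m (fun i => ca (W i)) (fun i => cb (W i)) hne N f
      (fun i => ⟨(hf i).one, (hf i).real, (hf i).mul, (hf i).pow, (hf i).good, (hf i).bad,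
        (hf i).fricke, (hf i).points⟩) h0 2 n r Nat.prime_two
    refine ⟨n * (Pool.Agent.R901.EC.badp W).card * r + V0, fun H hH => ?_⟩
    have hOk : Pool.Agent.Y18.LP.HOk m (fun i => ca (W i)) (fun i => cb (W i)) 2 n H :=
      ⟨hH.pow, hH.finite, hH.admissible⟩
    obtain ⟨H1, h1, h2, R, hR1, hR2, h3⟩ := Pool.Agent.R901.EC.split_curves (W := W) hΔ n H hOk
    have hOk1 : Pool.Agent.Y18.LP.HOk m (fun i => ca (W i)) (fun i => cb (W i)) 2 n H1 :=
      ⟨fun c hc => hH.pow c (h1 hc), fun c hc => hH.finite c (h1 hc),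
        fun c hc => hH.admissible c (h1 hc)⟩
    obtain ⟨K1, h4, h5, h6⟩ := hV0 H1 hOk1
    have hfinal : ∀ c : Fin r → Fam, (∀ j, c j ∈ H1) → ∃ k ∈ K1,
        (fun c : Fin r → Fam => (∀ j, c j ∈ H1) →
          ∀ (F : IntermediateField ℚ ℂ) [NumberField F], F ≤ fieldOf c →
            ∀ i, BSDRankZeroOver F (ca (W i)) (cb (W i)) (f i)) (fun j => c j * k j) := by
      intro c hc
      obtain ⟨k, hk, h7⟩ := h6 c hc
      refine ⟨k, hk, fun hck F _ hF i => bsd_of (h7 F hF i) ?_⟩
      have hfin := Pool.Agent.R901.EC.finite_curves (W := W) hΔ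
        (fun i => ⟨(hS i).1, (hS i).2.1, (hS i).2.2⟩) n H1 hOk1 h2 F (hF.trans (by
          refine IntermediateField.adjoin.mono ℚ _ _ ?_
          rintro x ⟨J, rfl⟩
          exact ⟨∏ j, (c j * k j) ^ J j,
            Pool.Agent.R901.EC.prod_pow_mem (G := Fam) H1 (fun j => c j * k j) hck J, rfl⟩)) i
      have e : Pool.Agent.R901.EC.twk (W i) F 1 =
          ({ a₁ := 0, a₂ := 0, a₃ := 0, a₄ := ((ca (W i) : ℤ) : F), a₆ := ((cb (W i) : ℤ) : F) } :
            WeierstrassCurve F) := by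
        unfold Pool.Agent.R901.EC.twk
        rw [one_pow, one_pow, mul_one, mul_one]
        rfl
      rw [e] at hfin
      exact hfin
    obtain ⟨K, h8, h9, h10⟩ := Pool.Agent.R901.EC.corr_tuple (G := Fam) h1 R hR2 h3 K1 h5
      (fun c : Fin r → Fam => (∀ j, c j ∈ H1) →
          ∀ (F : IntermediateField ℚ ℂ) [NumberField F], F ≤ fieldOf c →
            ∀ i, BSDRankZeroOver F (ca (W i)) (cb (W i)) (f i)) hfinal
    have hKcard : K.card ≤ 2 ^ (n * (Pool.Agent.R901.EC.badp W).card * r + V0) := by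
      refine h8.trans ?_
      rw [pow_add, pow_mul, pow_mul]
      exact Nat.mul_le_mul (Nat.pow_le_pow_left hR1 r) h4
    have h11 : ∀ c : Fin r → Fam, (∀ j, c j ∈ H) → ∃ k ∈ K,
        (fun c : Fin r → Fam => ∀ (F : IntermediateField ℚ ℂ) [NumberField F], F ≤ fieldOf c →
          ∀ i, BSDRankZeroOver F (ca (W i)) (cb (W i)) (f i)) (fun j => c j * k j) := by
      intro c hc
      obtain ⟨k, hk, h12, h13⟩ := h10 c hc
      exact ⟨k, hk, h13 h12⟩
    refine ⟨⟨K, hKcard, fun k hk => h9 k hk, h11⟩, ?_⟩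
    exact Pool.Agent.R901.EC.many_tuples hH.finite (fun c hc q hq => (hH.admissible c hc q hq).1) K
      hKcard h9 h11
  · norm_num [X11, WeierstrassCurve.Δ, WeierstrassCurve.b₂, WeierstrassCurve.b₄,
      WeierstrassCurve.b₆, WeierstrassCurve.b₈]
  · obtain ⟨h1, h2, h3⟩ := Pool.Agent.R901.EC.sel11
    exact ⟨h2, h3, h1⟩
  · have e1 : ca X11 = -13392 := by
      norm_num [ca, X11, WeierstrassCurve.c₄, WeierstrassCurve.b₂, WeierstrassCurve.b₄]
    have e2 : cb X11 = -1080432 := by
      norm_num [cb, X11, WeierstrassCurve.c₆, WeierstrassCurve.b₂, WeierstrassCurve.b₄,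
        WeierstrassCurve.b₆]
    rw [e1, e2]
    have h := Pool.Agent.Y18.BSD.Eleven.isFormOf
    exact ⟨_, ⟨h.one, h.real, h.mul, h.pow, h.good, h.bad, h.fricke, h.points⟩⟩
  · have e1 : ca X11 = -13392 := by
      norm_num [ca, X11, WeierstrassCurve.c₄, WeierstrassCurve.b₂, WeierstrassCurve.b₄]
    have e2 : cb X11 = -1080432 := by
      norm_num [cb, X11, WeierstrassCurve.c₆, WeierstrassCurve.b₂, WeierstrassCurve.b₄,
        WeierstrassCurve.b₆]
    rw [e1, e2]
    exact Pool.Agent.Y18.NF.rankZero11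

end Pool.Agent.Results.MP_32c55d_nt.UniformProportionOfFields
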